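import Pool.Agent.Y148.ZC.AlgCK

/-!
# Chow-Künneth decompositions from zero-cycles

It is known that the Künneth conjecture for `X` gives a Chow-Künneth decomposition of `X` if
homologically trivial elements of `CH^d(X × X)`, `d = dim X`, are nilpotent. We show that if one
considers all `X`, much less is sufficient, both in the condition and in the cycles which have to be
considered.

**Theorem.** For smooth projective complex varieties the following statements are equivalent.

1. Every `X` has a Chow-Künneth decomposition, and each homologically trivial `G ∈ CH^d(X × X)`
   satisfies an algebraic equation `f(G) = 0`, `f ∈ ℚ[t]` nonzero.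
2. The Künneth conjecture holds, and each homologically trivial `G ∈ CH^d(X × X)` satisfies an
   algebraic equation.
3. The Künneth conjecture holds, and for all `X`, each homologically trivial `G ∈ CH^d(X × X)` and
   each zero-cycle `x` on `X` the zero-cycles `x, G_* x, (G_*)^2 x, …` are linearly dependent in
   `CH_0(X)` (with rational coefficients).

So Chow-Künneth decompositions exist for all `X` if the Künneth conjecture holds and the orbits of
zero-cycles under homologically trivial self-correspondences span finite-dimensional spaces. This
allows phantoms (nonzero homologically trivial idempotents), on which nothing is nilpotent.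

The theorem of Bloch and Srinivas is the hypothesis `BlochSrinivas`, see
`Pool.Agent.Results.MP_868bb7_ag.ZeroCycles`; the base field may be any uncountable algebraically
closed field, and `H` any Weil cohomology theory.

## Proof

3 → 2. Let `G` be homologically trivial and let it pass through varieties of dimension `d` (with any
shift). We show that `G` is algebraic by induction on `d`. As in `MP_868bb7_ag.ZeroCycles` we find a
variety `P'` and a homologically trivial `G' ∈ CH(P' × P')` such that `G` is algebraic if `G'` is, and
`G'` is a sum of compositions of `N_b : P' → D_b` and `ι_b : D_b → P'` of degree zero, `dim D_b = d`.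
For each zero-cycle `x` on `D_b` there is `f ≠ 0` with `f(G')_* (ι_b)_* x = 0`. There are only
countably many polynomials `f`, so by Bloch and Srinivas there is one `F ≠ 0` such that all
`F(G') ι_b` pass through varieties of dimension `d - 1`. Hence so does `F(G') G'`, which is algebraic
by induction, and so `G'` is algebraic.

2 → 1. Let `κ_j` lift the Künneth projectors and put `x = ∑ j κ_j`. Then `x` acts on `H^j(X)` as `j`,
so `L(x)`, `L = ∏ (t - j)`, is homologically trivial and therefore algebraic, and so is `x`. If
`M(x) = 0`, where `M` is divisible by `L`, there are polynomials `q_j` with sum 1 such that `M` divides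
`q_i q_j` and `t - j` divides `q_i` for `i ≠ j`. The `q_j(x)` are a Chow-Künneth decomposition.
-/

open CategoryTheory AlgebraicGeometry

universe u v w

namespace Pool.Agent.Results.MP_638e8a_ag.AlgebraicOnZeroCycles

open Pool.Agent.H914 Pool.Agent.W492.BB Pool.Agent.TH133 Pool.Agent.Y148.ZC

/-- Chow-Künneth decompositions and algebraicity of homologically trivial correspondences from
zero-cycles. -/
theorem result {k : Type u} [Field k] {𝒱 : VarClass k}
    (C : TheoryData.{u, v, 0} 𝒱 ℚ) [IsChowProj C] {K : Type w} [Field K]
    (H : WeilTheoryData.{u, v, w} C K) [IsWeilProj H] (hS : BlochSrinivas C) :
    List.TFAE [AllChowKunneth H ∧ HomTrivialAlgebraic H,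
      KunnethConjecture H ∧ HomTrivialAlgebraic H,
      KunnethConjecture H ∧ AlgebraicOnZeroCycles H] :=
  alg_main hS

end Pool.Agent.Results.MP_638e8a_ag.AlgebraicOnZeroCycles
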