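import Pool.Agent.Y107.FD.Main

/-!
# Chow-Kunneth decompositions, extensions of the base field and specialisation

`𝒱` and `𝒱'` are classes of smooth projective geometrically irreducible varieties over the fields
`k` and `k'`, closed under products, `C` and `C'` the Chow groups with rational coefficients (in the
form of their formal properties, `IsChowProj`), `H` and `H'` Weil cohomology theories (`IsWeilProj`).

Let `X` be a variety over `k` and `L ∈ CH^(d+1)(X × X)` a correspondence of degree one, equal to its
transpose and satisfying hard Lefschetz on the cohomology of `X`, for instance the intersection with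
an ample divisor class. We consider Chow-Kunneth decompositions which satisfy motivic hard Lefschetz
for `L`: `L` maps `h^n(X)` to `h^(n+2)(X)(1)`, and `L^(d-n) : h^n(X) → h^(2d-n)(X)(d-n)` is an
isomorphism of Chow motives for `n ≤ d`.

1. Extension of the base field: let `X' = X_k'`, with the base change `β` of correspondences and a
   transfer `τ` in the opposite direction (push-forward divided by the degree if `k'/k` is finite, in
   general composed with a specialisation). If `X'` has a Chow-Kunneth decomposition `ρ` satisfying
   motivic hard Lefschetz for `β L`, then `X` has a self-dual one satisfying motivic hard Lefschetz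
   for `L`. Moreover the base change of every such decomposition of `X` is one of `X'`, and it is
   canonically isomorphic to `ρ`, in particular conjugate to it under an automorphism of the motive
   `h(X')` which commutes with `β L`: up to isomorphism `ρ` is defined over `k`.
2. The existence also descends along a transfer alone, for instance from the (geometric) generic
   fibre of a smooth projective family to the special fibres.
3. Two Chow-Kunneth decompositions of `X` satisfying motivic hard Lefschetz for the same `L` are
   canonically isomorphic.

Nothing is assumed about nilpotence or finite dimensionality. The projectors themselves do not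
descend: a Chow-Kunneth decomposition over `k'` is not stable under the Galois group, and averaging
destroys idempotence. What descends is the equation `[L, [L, z]] = L`, which is linear in `z`.
-/

open CategoryTheory AlgebraicGeometry

set_option autoImplicit false

universe u v w u' v' w'

namespace Pool.Agent.Results.MP_638e8a_ag.FieldDescent

open Pool.Agent.H914 Pool.Agent.W492.BB Pool.Agent.TH133 Pool.Agent.Y107 Pool.Agent.Y107.FD
  Pool.Agent.W550.Corr

/-- Chow-Kunneth decompositions satisfying motivic hard Lefschetz descend along extensions of the
base field, existence descends along transfers, and they are unique up to canonical isomorphism. -/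
theorem result {k : Type u} [Field k] {𝒱 : VarClass k} (C : TheoryData.{u, v, 0} 𝒱 ℚ)
    [IsChowProj C] {K : Type w} [Field K] (H : WeilTheoryData.{u, v, w} C K) [IsWeilProj H]
    {k' : Type u'} [Field k'] {𝒱' : VarClass k'} (C' : TheoryData.{u', v', 0} 𝒱' ℚ)
    [IsChowProj C'] {K' : Type w'} [Field K'] (H' : WeilTheoryData.{u', v', w'} C' K')
    [IsWeilProj H'] (X : 𝒱.Obj) (X' : 𝒱'.Obj) (L : C.A (X.prod X))
    (hL : C.Deg ((X.dim : ℤ) + 1) L) (hs : tp C L = L) (hHL : HardLefschetzCor H X L) :
    (∀ β τ, IsBaseChange β → IsTransfer L (β L) τ → ∀ ρ : ℕ → C'.A (X'.prod X'),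
      LefschetzCK H' (β L) ρ → HasSelfDualLefschetz H L ∧ DefinedOver H H' L β ρ) ∧
    (∀ L' τ, C'.Deg ((X'.dim : ℤ) + 1) L' → IsTransfer L L' τ →
      ∀ ρ : ℕ → C'.A (X'.prod X'), LefschetzCK H' L' ρ → HasSelfDualLefschetz H L) ∧
    ∀ π ρ, LefschetzCK H L π → LefschetzCK H L ρ → Isomorphic C L π ρ := by
  refine ⟨fun β τ hβ hτ ρ hρ => ⟨?_, fun π hπ => ?_⟩,
    fun L' τ hL' hτ ρ hρ => exists_of_transfer hL hs hHL hL' hτ hρ.1 hρ.2, fun π ρ hπ hρ => ?_⟩
  · have h1 : C'.Deg ((X'.dim : ℤ) + 1) (β L) := by
      rw [hβ.dim]
      exact hβ.deg _ _ hL
    exact exists_of_transfer hL hs hHL h1 hτ hρ.1 hρ.2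
  · obtain ⟨h1, h2, h3⟩ := base_isomorphic hβ hπ.1 hπ.2 hρ.1 hρ.2
    exact ⟨⟨h1, h2⟩, h3⟩
  · have hid : IsBaseChange (C := C) (C' := C) (X := X) (X' := X) (fun z => z) :=
      ⟨rfl, fun _ _ => rfl, fun _ _ h => h, rfl, fun _ _ => rfl⟩
    exact (base_isomorphic (C := C) (C' := C) (H := H) (H' := H) hid hπ.1 hπ.2 hρ.1 hρ.2).2.2

end Pool.Agent.Results.MP_638e8a_ag.FieldDescent
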