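import Pool.Agent.Y110.CK.Fin

/-!
Chow-Künneth decompositions and finite-dimensional direct summands.

`𝒞` is an idempotent complete additive category with `ℚ`-linear structure, for instance the category
of Chow motives over a field, and `R j` are additive functors to vector spaces, for instance the
groups `H^j` of a Weil cohomology. An object `N` is tame if its endomorphisms are algebraic over
`ℚ` and the families of nonzero orthogonal idempotents of `N` have a bounded number of members;
Kimura finite-dimensional motives are tame. If `N` is tame then `M ⊞ N` has a Chow-Künneth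
decomposition if and only if `M` and `N` have one, and the decomposition of `M ⊞ N` can be chosen to
be compatible with the direct sum. So the existence of a Chow-Künneth decomposition is invariant
under blow-ups and blow-downs whose centres have tame motives with Chow-Künneth decompositions; in
particular it is a birational invariant of smooth projective threefolds in characteristic zero. The
same holds for decompositions whose projectors are killed by prescribed additive functors, for
instance Chow groups in certain degrees as in the conjectures of Murre.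
-/

namespace Pool.Agent.Results.MP_638e8a_ag.FiniteDimensionalSummands

open CategoryTheory CategoryTheory.Limits Pool.Agent.Y110.CK

universe v u w v' u' t

theorem result {𝒞 : Type u} [Category.{v} 𝒞] [Preadditive 𝒞] [HasBinaryBiproducts 𝒞] [Linear ℚ 𝒞]
    [IsIdempotentComplete 𝒞] :
    (∀ (K : Type w) [Field K] (R : ℕ → 𝒞 ⥤ ModuleCat.{w} K) [∀ j, (R j).Additive],
      (∀ M N : 𝒞, Tame N → (HasCK R (M ⊞ N) ↔ HasCK R M ∧ HasCK R N)) ∧
      (∀ M N : 𝒞, Tame N → HasCK R (M ⊞ N) → ∃ n π, IsCK R (M ⊞ N) n π ∧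
        ∀ l, π l ≫ biprod.snd ≫ biprod.inr = (biprod.snd ≫ biprod.inr) ≫ π l) ∧
      (∀ X Y : 𝒞, Relation.EqvGen (fun X Y : 𝒞 => ∃ N : 𝒞, Tame N ∧ HasCK R N ∧
        Nonempty (Y ≅ X ⊞ N)) X Y → (HasCK R X ↔ HasCK R Y))) ∧
    (∀ (ι : Type t) (𝒟 : Type u') [Category.{v'} 𝒟] [Preadditive 𝒟] (F : ι → 𝒞 ⥤ 𝒟)
      [∀ a, (F a).Additive] (Z : ℕ → Set ι),
      (∀ M N : 𝒞, Tame N → (HasDec F Z (M ⊞ N) ↔ HasDec F Z M ∧ HasDec F Z N)) ∧
      (∀ X Y : 𝒞, Relation.EqvGen (fun X Y : 𝒞 => ∃ N : 𝒞, Tame N ∧ HasDec F Z N ∧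
        Nonempty (Y ≅ X ⊞ N)) X Y → (HasDec F Z X ↔ HasDec F Z Y))) := by
  refine ⟨fun K _ R _ => ⟨fun M N hN => ?_, fun M N hN h => ?_, fun X Y h => ?_⟩,
    fun ι 𝒟 _ _ F _ Z => ⟨fun M N hN => cancel_biprod M N hN, fun X Y h => chain_iff h⟩⟩
  · rw [hasCK_iff, hasCK_iff, hasCK_iff]
    exact cancel_biprod M N hN
  · rw [hasCK_iff] at h
    obtain ⟨n, π, h1, h2⟩ := compatible_biprod M N hN h
    exact ⟨n, π, (isCK_iff R).mpr h1, h2⟩
  · rw [hasCK_iff, hasCK_iff]
    refine chain_iff (h.mono ?_)
    rintro X Y ⟨N, hN, hd, he⟩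
    exact ⟨N, hN, (hasCK_iff R).mp hd, he⟩

end Pool.Agent.Results.MP_638e8a_ag.FiniteDimensionalSummands
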