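import Pool.Agent.Y106.CG.Top

/-!
# Chow motives of the fixed part, and Chow-Kunneth decompositions of the fibres of a family

Let `g : Z ⟶ S` be a morphism of smooth projective varieties over a field whose cohomology has the
decomposition into perverse pieces given by the decomposition theorem (`PerverseDecomposition`).
Suppose that the total space `Z` satisfies the standard conjecture B and that the homologically
trivial self-correspondences of degree zero of `Z` are nilpotent (for example `Z` has a
finite-dimensional motive in the sense of Kimura). No condition of this kind is imposed on the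
fibres, whose motives are not known to be finite-dimensional. Then:

* for each smooth fibre `F` there are Chow motives `(F, ρ_j)` with cohomology the fixed part of
  `H^j(F)`, that is, the image of `H^j(Z)`; the projectors `ρ_j` are restrictions to `F × F` of cycles
  on `Z × Z`;
* they are unique up to isomorphism, and for different fibres they are isomorphic, by isomorphisms
  inducing the transport `i^* x ↦ i'^* x` in the cohomology;
* if for `j ≠ dim F` the space `H^j(F)` is spanned by the fixed part and the classes of algebraic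
  cycles, then `F` has a Chow-Kunneth decomposition, and `(F, ρ_j)` is a direct factor of `h^j(F)`.
-/

open CategoryTheory AlgebraicGeometry

universe u v

namespace Pool.Agent.Results.MP_638e8a_ag.FixedPartOfFibres

open Pool.Agent.H914 Pool.Agent.H914.VarClass Pool.Agent.H914.VarClass.Obj Pool.Agent.W498.Dom
  Pool.Agent.Y106.CG

theorem result {k : Type u} [Field k] {𝒱 : VarClass k} {ops : CycleOps 𝒱}
    {W : WeilCohomology.{u, v} ops} {R : CycRel 𝒱} (hR : IsChow W R)
    {Z S : 𝒱.Obj} {g : Z ⟶ S} {G : S.Cycles} {E D : Z.Cycles}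
    (hG : S.IsCyc 1 G) (hE : Z.IsCyc 1 E) (Q : PerverseDecomposition W g G E)
    (hB : StandardB W Z D) (hN : NilHomTrivial W R Z) :
    (∀ (F : 𝒱.Obj) (i : F ⟶ Z), IsSmoothFibre Q i → ∃ ρ, IsFixedSystem W R i ρ) ∧
    (∀ (F F' : 𝒱.Obj) (i : F ⟶ Z) (i' : F' ⟶ Z) (ρ : ℕ → (F.prod F).Cycles)
      (ρ' : ℕ → (F'.prod F').Cycles), IsSmoothFibre Q i → IsSmoothFibre Q i' →
      IsFixedSystem W R i ρ → IsFixedSystem W R i' ρ' →
      ∀ j, IsoByTransport W R i i' j (ρ j) (ρ' j)) ∧
    (∀ (F : 𝒱.Obj) (i : F ⟶ Z) (ρ : ℕ → (F.prod F).Cycles), IsSmoothFibre Q i →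
      IsFixedSystem W R i ρ → FixedOrAlgebraic W i → ∃ π, IsCKDec W R F π ∧
        ∀ j, R.Eqv (compCyc ops (π j) (ρ j)) (ρ j) ∧ R.Eqv (compCyc ops (ρ j) (π j)) (ρ j)) :=
  Pool.Agent.Y106.CG.top hR hG hE Q hB hN

end Pool.Agent.Results.MP_638e8a_ag.FixedPartOfFibres
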